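import Mathlib

/-!
KAC ADE numbers, class zero of `E_7` and `E_8`: the polynomial algebra (parts (d) and (f) of CN7).
-/

set_option autoImplicit false

namespace Pool.H27.PD

open Polynomial

/-- `F ∣ X * P'` and `F(0) = 1` gives `F ∣ P'`. -/
theorem dvd_of_dvd_X_mul {F Q : ℚ[X]} (h0 : F.coeff 0 = 1) (h : F ∣ X * Q) : F ∣ Q := by
  have hco : IsCoprime F X := by
    have h1 : IsCoprime (1 : ℚ[X]) X := isCoprime_one_left
    have h2 : F = 1 + F.divX * X := by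
      conv_lhs => rw [← Polynomial.divX_mul_X_add F]
      rw [h0, Polynomial.C_1]
      ring
    rw [h2]
    exact (IsCoprime.add_mul_right_left_iff).mpr h1
  exact hco.dvd_of_dvd_mul_left h

/-- the multiplicity goes up by one: `f ^ n ∣ P`, `f ^ n ∣ P'`, `f` coprime to `f'`. -/
theorem pow_succ_dvd {f P : ℚ[X]} (hf : IsCoprime f (derivative f)) (n : ℕ) (hn : n ≠ 0)
    (h1 : f ^ n ∣ P) (h2 : f ^ n ∣ derivative P) (hf0 : f ≠ 0) : f ^ (n + 1) ∣ P := by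
  obtain ⟨G, hG⟩ := h1
  have h3 : derivative P = f ^ (n - 1) * (C (n : ℚ) * derivative f * G) + f ^ n * derivative G := by
    rw [hG, derivative_mul, derivative_pow]
    ring
  have h4 : f ^ n ∣ f ^ (n - 1) * (C (n : ℚ) * derivative f * G) := by
    have h5 : f ^ (n - 1) * (C (n : ℚ) * derivative f * G) = derivative P - f ^ n * derivative G := by
      rw [h3]; ring
    rw [h5]
    exact dvd_sub h2 (dvd_mul_right _ _)
  have hfn : f ^ n = f ^ (n - 1) * f := by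
    conv_lhs => rw [show n = n - 1 + 1 by omega, pow_succ]
  rw [hfn] at h4
  have h5 : f ∣ C (n : ℚ) * derivative f * G :=
    (mul_dvd_mul_iff_left (pow_ne_zero _ hf0)).mp h4
  have hu : IsUnit (C (n : ℚ)) := by
    rw [Polynomial.isUnit_C]
    exact isUnit_iff_ne_zero.mpr (by exact_mod_cast hn)
  have h6 : f ∣ derivative f * G := by
    rw [mul_assoc] at h5
    exact hu.dvd_mul_left.mp h5
  have h7 : f ∣ G := hf.dvd_of_dvd_mul_left h6
  rw [hG, pow_succ]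
  exact mul_dvd_mul_left _ h7

theorem cop2 : IsCoprime (1 + X : ℚ[X]) (derivative (1 + X)) := by
  have : derivative (1 + X : ℚ[X]) = 1 := by simp
  rw [this]; exact isCoprime_one_right

theorem cop3 : IsCoprime (1 + X + X ^ 2 : ℚ[X]) (derivative (1 + X + X ^ 2)) := by
  have : derivative (1 + X + X ^ 2 : ℚ[X]) = 1 + 2 * X := by
    simp
    norm_num
  rw [this]
  refine ⟨C (4/3), C (-(1/3)) * (1 + 2 * X), ?_⟩
  have h1 : (C (4/3) : ℚ[X]) = 1 + C (1/3) := by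
    rw [← C_1, ← C_add]; norm_num
  have h2 : (C (-(1/3)) : ℚ[X]) = - C (1/3) := by rw [C_neg]
  have h3 : (3 : ℚ[X]) * C (1/3) = 1 := by
    rw [show (3 : ℚ[X]) = C 3 by rfl, ← C_mul]; norm_num
  rw [h1, h2]
  linear_combination -(X + X ^ 2) * h3

theorem cop4 : IsCoprime (1 + X ^ 2 : ℚ[X]) (derivative (1 + X ^ 2)) := by
  have : derivative (1 + X ^ 2 : ℚ[X]) = 2 * X := by
    simp
    norm_num
  rw [this]
  refine ⟨1, C (-(1/2)) * X, ?_⟩
  have h3 : (2 : ℚ[X]) * C (-(1/2)) = -1 := by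
    rw [show (2 : ℚ[X]) = C 2 by rfl, ← C_mul, show (2 : ℚ) * -(1/2) = -1 by norm_num, C_neg, C_1]
  linear_combination X ^ 2 * h3


theorem cop12 : IsCoprime (1 - X : ℚ[X]) (1 + X) := by
  refine ⟨C (1/2), C (1/2), ?_⟩
  have h3 : (2 : ℚ[X]) * C (1/2) = 1 := by
    rw [show (2 : ℚ[X]) = C 2 by rfl, ← C_mul]; norm_num
  linear_combination h3

theorem cop13 : IsCoprime (1 - X : ℚ[X]) (1 + X + X ^ 2) := by
  -- 1 + X + X² - (1-X)(...) = 3
  refine ⟨C (1/3) * (2 + X), C (1/3), ?_⟩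
  have h3 : (3 : ℚ[X]) * C (1/3) = 1 := by
    rw [show (3 : ℚ[X]) = C 3 by rfl, ← C_mul]; norm_num
  linear_combination h3

theorem cop14 : IsCoprime (1 - X : ℚ[X]) (1 + X ^ 2) := by
  refine ⟨C (1/2) * (1 + X), C (1/2), ?_⟩
  have h3 : (2 : ℚ[X]) * C (1/2) = 1 := by
    rw [show (2 : ℚ[X]) = C 2 by rfl, ← C_mul]; norm_num
  linear_combination h3

theorem cop23 : IsCoprime (1 + X : ℚ[X]) (1 + X + X ^ 2) := by
  refine ⟨-X, 1, ?_⟩
  ring

theorem cop24 : IsCoprime (1 + X : ℚ[X]) (1 + X ^ 2) := by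
  refine ⟨C (1/2) * (1 - X), C (1/2), ?_⟩
  have h3 : (2 : ℚ[X]) * C (1/2) = 1 := by
    rw [show (2 : ℚ[X]) = C 2 by rfl, ← C_mul]; norm_num
  linear_combination h3

theorem cop34 : IsCoprime (1 + X + X ^ 2 : ℚ[X]) (1 + X ^ 2) := by
  refine ⟨-X, 1 + X, ?_⟩
  ring

/-- what is used about the polynomial `P` of `(A, 0)`: `m = mm A`, `l = -(-1)^|A|`, `k = |A| + 1`. -/
structure PC (P : ℚ[X]) (c : ℕ → ℚ) (m : ℕ) (l : ℚ) (k : ℕ) : Prop where
  c0 : P.coeff 0 = 1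
  deg : P.natDegree = m
  lead : P.leadingCoeff = l
  mul : (P : PowerSeries ℚ) * PowerSeries.mk c = 1
  one : (1 - X) ^ k ∣ P

/-- the low coefficients of `P` in terms of `c`. -/
theorem PC.recu {P : ℚ[X]} {c : ℕ → ℚ} {m : ℕ} {l : ℚ} {k : ℕ} (h : PC P c m l k) (n : ℕ)
    (hn : 1 ≤ n) : ∑ i ∈ Finset.range (n + 1), P.coeff i * c (n - i) = 0 := by
  have h1 := congrArg (PowerSeries.coeff n) h.mul
  rw [PowerSeries.coeff_mul, Finset.Nat.sum_antidiagonal_eq_sum_range_succ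
    (fun i j => PowerSeries.coeff i (P : PowerSeries ℚ) *
      PowerSeries.coeff j (PowerSeries.mk c))] at h1
  simp only [Polynomial.coeff_coe, PowerSeries.coeff_mk] at h1
  rw [h1, PowerSeries.coeff_one, if_neg (by omega)]

theorem PC.c_zero {P : ℚ[X]} {c : ℕ → ℚ} {m : ℕ} {l : ℚ} {k : ℕ} (h : PC P c m l k) :
    c 0 = 1 := by
  have h1 := congrArg (PowerSeries.coeff 0) h.mul
  rw [PowerSeries.coeff_mul, Finset.Nat.sum_antidiagonal_eq_sum_range_succ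
    (fun i j => PowerSeries.coeff i (P : PowerSeries ℚ) *
      PowerSeries.coeff j (PowerSeries.mk c))] at h1
  simp only [Polynomial.coeff_coe, PowerSeries.coeff_mk] at h1
  simp [h.c0] at h1
  exact h1

theorem PC.c1 {P : ℚ[X]} {c : ℕ → ℚ} {m : ℕ} {l : ℚ} {k : ℕ} (h : PC P c m l k) :
    P.coeff 1 = - c 1 := by
  have h1 := h.recu 1 le_rfl
  simp [Finset.sum_range_succ, h.c0, h.c_zero] at h1
  linarith

theorem natDegree_factor {Q W P : ℚ[X]} (hP : P = Q * W) (h0 : P ≠ 0) :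
    P.natDegree = Q.natDegree + W.natDegree := by
  rw [hP, natDegree_mul]
  · rintro rfl; simp at hP; exact h0 hP
  · rintro rfl; simp at hP; exact h0 hP

/-- a quadratic cofactor. -/
theorem quad {Q W P : ℚ[X]} {c : ℕ → ℚ} {m : ℕ} {l : ℚ} {k : ℕ} (h : PC P c m l k)
    (hP : P = Q * W) (hQd : Q.natDegree + 2 = m) (hQ0 : Q.coeff 0 = 1)
    (hQl : Q.leadingCoeff = l) (hl : l ≠ 0) (u : ℚ) (hQ1 : Q.coeff 1 + u = - c 1) :
    W = 1 + C u * X + X ^ 2 := by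
  have hP0 : P ≠ 0 := by
    rintro rfl
    have := h.c0
    simp at this
  have hd := natDegree_factor hP hP0
  rw [h.deg] at hd
  have hWd : W.natDegree = 2 := by omega
  have hW0 : W.coeff 0 = 1 := by
    have h1 := h.c0
    rw [hP, mul_coeff_zero, hQ0, one_mul] at h1
    exact h1
  have hWl : W.coeff 2 = 1 := by
    have h1 := h.lead
    rw [hP, leadingCoeff_mul, hQl] at h1
    have h2 : W.leadingCoeff = 1 := by
      have h3 : l * W.leadingCoeff = l * 1 := by rw [h1, mul_one]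
      exact mul_left_cancel₀ hl h3
    unfold leadingCoeff at h2
    rwa [hWd] at h2
  have hW1 : W.coeff 1 = u := by
    have h1 := h.c1
    rw [hP, coeff_mul, Finset.Nat.sum_antidiagonal_eq_sum_range_succ
      (fun i j => Q.coeff i * W.coeff j)] at h1
    simp [Finset.sum_range_succ, hQ0, hW0] at h1
    linarith
  ext n
  rcases Nat.lt_or_ge n 3 with hn | hn
  · interval_cases n
    · simp [hW0]
    · simp [hW1, coeff_one, coeff_X_pow]
    · simp [hWl, coeff_one, coeff_X_pow]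
  · rw [coeff_eq_zero_of_natDegree_lt (by omega)]
    have h1 : (1 + C u * X + X ^ 2 : ℚ[X]).natDegree ≤ 2 := by compute_degree
    exact (coeff_eq_zero_of_natDegree_lt (by omega)).symm


/-! explicit factors -/

theorem nd1 : (1 - X : ℚ[X]).natDegree = 1 := by compute_degree!
theorem nd2 : (1 + X : ℚ[X]).natDegree = 1 := by compute_degree!
theorem nd3 : (1 + X + X ^ 2 : ℚ[X]).natDegree = 2 := by compute_degree!
theorem nd4 : (1 + X ^ 2 : ℚ[X]).natDegree = 2 := by compute_degree!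

theorem lc1 : (1 - X : ℚ[X]).leadingCoeff = -1 := by
  unfold leadingCoeff; rw [nd1]; simp [coeff_one]
theorem lc2 : (1 + X : ℚ[X]).leadingCoeff = 1 := by
  unfold leadingCoeff; rw [nd2]; simp [coeff_one]
theorem lc3 : (1 + X + X ^ 2 : ℚ[X]).leadingCoeff = 1 := by
  unfold leadingCoeff; rw [nd3]; simp [coeff_one, coeff_X]
theorem lc4 : (1 + X ^ 2 : ℚ[X]).leadingCoeff = 1 := by
  unfold leadingCoeff; rw [nd4]; simp [coeff_one]

theorem ne1 : (1 - X : ℚ[X]) ≠ 0 := by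
  intro h; have := lc1; rw [h] at this; simp at this
theorem ne2 : (1 + X : ℚ[X]) ≠ 0 := by
  intro h; have := lc2; rw [h] at this; simp at this
theorem ne3 : (1 + X + X ^ 2 : ℚ[X]) ≠ 0 := by
  intro h; have := lc3; rw [h] at this; simp at this
theorem ne4 : (1 + X ^ 2 : ℚ[X]) ≠ 0 := by
  intro h; have := lc4; rw [h] at this; simp at this

/-- the product of powers. -/
noncomputable def QQ (e1 e2 e3 e4 : ℕ) : ℚ[X] :=
  (1 - X) ^ e1 * (1 + X) ^ e2 * (1 + X + X ^ 2) ^ e3 * (1 + X ^ 2) ^ e4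

theorem QQ_ne (e1 e2 e3 e4 : ℕ) : QQ e1 e2 e3 e4 ≠ 0 := by
  unfold QQ
  exact mul_ne_zero (mul_ne_zero (mul_ne_zero (pow_ne_zero _ ne1) (pow_ne_zero _ ne2))
    (pow_ne_zero _ ne3)) (pow_ne_zero _ ne4)

theorem QQ_deg (e1 e2 e3 e4 : ℕ) : (QQ e1 e2 e3 e4).natDegree = e1 + e2 + 2 * e3 + 2 * e4 := by
  unfold QQ
  rw [natDegree_mul (mul_ne_zero (mul_ne_zero (pow_ne_zero _ ne1) (pow_ne_zero _ ne2))
    (pow_ne_zero _ ne3)) (pow_ne_zero _ ne4),
    natDegree_mul (mul_ne_zero (pow_ne_zero _ ne1) (pow_ne_zero _ ne2)) (pow_ne_zero _ ne3),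
    natDegree_mul (pow_ne_zero _ ne1) (pow_ne_zero _ ne2), natDegree_pow, natDegree_pow,
    natDegree_pow, natDegree_pow, nd1, nd2, nd3, nd4]
  ring

theorem QQ_lc (e1 e2 e3 e4 : ℕ) : (QQ e1 e2 e3 e4).leadingCoeff = (-1) ^ e1 := by
  unfold QQ
  rw [leadingCoeff_mul, leadingCoeff_mul, leadingCoeff_mul, leadingCoeff_pow, leadingCoeff_pow,
    leadingCoeff_pow, leadingCoeff_pow, lc1, lc2, lc3, lc4]
  simp

theorem QQ_c0 (e1 e2 e3 e4 : ℕ) : (QQ e1 e2 e3 e4).coeff 0 = 1 := by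
  rw [coeff_zero_eq_eval_zero]
  unfold QQ
  simp

theorem QQ_c1 (e1 e2 e3 e4 : ℕ) : (QQ e1 e2 e3 e4).coeff 1 = -(e1 : ℚ) + e2 + e3 := by
  have h1 : (QQ e1 e2 e3 e4).coeff 1 = (derivative (QQ e1 e2 e3 e4)).coeff 0 := by
    rw [coeff_derivative]; simp
  rw [h1, coeff_zero_eq_eval_zero]
  unfold QQ
  simp [derivative_mul, derivative_pow]

/-- `D_5`. -/
theorem D5 {P : ℚ[X]} {c : ℕ → ℚ} (h : PC P c 8 1 6) (hc : c 1 = 4) : P = QQ 6 2 0 0 := by
  obtain ⟨W, hW⟩ := h.one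
  have hW' : P = QQ 6 0 0 0 * W := by rw [hW]; unfold QQ; ring
  have h1 := quad h hW' (by rw [QQ_deg]) (QQ_c0 _ _ _ _) (by rw [QQ_lc]; norm_num) one_ne_zero 2
    (by rw [QQ_c1, hc]; norm_num)
  rw [hW', h1]
  unfold QQ
  rw [show (C (2 : ℚ) : ℚ[X]) = 2 by rfl]
  ring

/-- combine coprime factors. -/
theorem QQ_dvd {P : ℚ[X]} {e1 e2 e3 e4 : ℕ} (h1 : (1 - X) ^ e1 ∣ P) (h2 : (1 + X) ^ e2 ∣ P)
    (h3 : (1 + X + X ^ 2) ^ e3 ∣ P) (h4 : (1 + X ^ 2) ^ e4 ∣ P) : QQ e1 e2 e3 e4 ∣ P := by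
  unfold QQ
  refine IsCoprime.mul_dvd ?_ (IsCoprime.mul_dvd ?_ (IsCoprime.mul_dvd ?_ h1 h2) h3) h4
  · exact IsCoprime.mul_left (IsCoprime.mul_left cop14.pow cop24.pow) cop34.pow
  · exact IsCoprime.mul_left cop13.pow cop23.pow
  · exact cop12.pow

theorem QQ_dvd2 (e1 e2 e3 e4 : ℕ) : (1 + X) ^ e2 ∣ QQ e1 e2 e3 e4 := by
  unfold QQ
  exact ⟨(1 - X) ^ e1 * (1 + X + X ^ 2) ^ e3 * (1 + X ^ 2) ^ e4, by ring⟩

theorem QQ_dvd3 (e1 e2 e3 e4 : ℕ) : (1 + X + X ^ 2) ^ e3 ∣ QQ e1 e2 e3 e4 := by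
  unfold QQ
  exact ⟨(1 - X) ^ e1 * (1 + X) ^ e2 * (1 + X ^ 2) ^ e4, by ring⟩

theorem QQ_dvd4 (e1 e2 e3 e4 : ℕ) : (1 + X ^ 2) ^ e4 ∣ QQ e1 e2 e3 e4 := by
  unfold QQ
  exact Dvd.intro_left _ rfl

/-- `E_6`. -/
theorem E6 {P : ℚ[X]} {c : ℕ → ℚ} (h : PC P c 12 (-1) 7) (hc : c 1 = 3)
    (h1 : QQ 6 2 0 0 ∣ P) (h2 : QQ 6 2 0 0 ∣ X * derivative P) : P = QQ 7 3 1 0 := by
  have h2' := dvd_of_dvd_X_mul (QQ_c0 _ _ _ _) h2
  have e2 : (1 + X : ℚ[X]) ^ 3 ∣ P := pow_succ_dvd cop2 2 (by norm_num)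
    ((QQ_dvd2 6 2 0 0).trans h1) ((QQ_dvd2 6 2 0 0).trans h2') ne2
  obtain ⟨W, hW⟩ := QQ_dvd (e3 := 0) (e4 := 0) h.one e2 (by simp) (by simp)
  have h3 := quad h hW (by rw [QQ_deg]) (QQ_c0 _ _ _ _) (by rw [QQ_lc]; norm_num)
    (by norm_num) 1 (by rw [QQ_c1, hc]; norm_num)
  rw [hW, h3]
  unfold QQ
  rw [C_1]
  ring

/-- `E_7`. -/
theorem E7 {P : ℚ[X]} {c : ℕ → ℚ} (h : PC P c 18 1 8) (hc : c 1 = 2)
    (h1 : QQ 7 3 1 0 ∣ P) (h2 : QQ 7 3 1 0 ∣ X * derivative P) : P = QQ 8 4 2 1 := by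
  have h2' := dvd_of_dvd_X_mul (QQ_c0 _ _ _ _) h2
  have e2 : (1 + X : ℚ[X]) ^ 4 ∣ P := pow_succ_dvd cop2 3 (by norm_num)
    ((QQ_dvd2 7 3 1 0).trans h1) ((QQ_dvd2 7 3 1 0).trans h2') ne2
  have e3 : (1 + X + X ^ 2 : ℚ[X]) ^ 2 ∣ P := pow_succ_dvd cop3 1 (by norm_num)
    ((QQ_dvd3 7 3 1 0).trans h1) ((QQ_dvd3 7 3 1 0).trans h2') ne3
  obtain ⟨W, hW⟩ := QQ_dvd (e4 := 0) h.one e2 e3 (by simp)
  have h3 := quad h hW (by rw [QQ_deg]) (QQ_c0 _ _ _ _) (by rw [QQ_lc]; norm_num)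
    (by norm_num) 0 (by rw [QQ_c1, hc]; norm_num)
  rw [hW, h3]
  unfold QQ
  rw [C_0]
  ring


theorem E8_expand : QQ 9 5 3 2 * (1 + X ^ 2 + X ^ 3 + X ^ 4 + X ^ 6) =
    (1 - X - 2 * X ^ 2 + X ^ 4 + 4 * X ^ 5) +
    (1 - 3 * X ^ 2 - 6 * X ^ 3 - X ^ 4 + 4 * X ^ 6 + 5 * X ^ 7 + 5 * X ^ 8 - 5 * X ^ 10
      - 5 * X ^ 11 - 4 * X ^ 12 + X ^ 14 + 6 * X ^ 15 + 3 * X ^ 16 - X ^ 18 - 4 * X ^ 19
      - X ^ 20 + 2 * X ^ 22 + X ^ 23 - X ^ 24) * X ^ 6 := by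
  unfold QQ
  ring

/-- `E_8`. -/
theorem E8 {P : ℚ[X]} {c : ℕ → ℚ} (h : PC P c 30 (-1) 9) (hc1 : c 1 = 1) (hc2 : c 2 = 3)
    (hc3 : c 3 = 5) (hc4 : c 4 = 10) (hc5 : c 5 = 15)
    (h1 : QQ 8 4 2 1 ∣ P) (h2 : QQ 8 4 2 1 ∣ X * derivative P) :
    P = QQ 9 5 3 2 * (1 + X ^ 2 + X ^ 3 + X ^ 4 + X ^ 6) := by
  have h2' := dvd_of_dvd_X_mul (QQ_c0 _ _ _ _) h2
  have e2 : (1 + X : ℚ[X]) ^ 5 ∣ P := pow_succ_dvd cop2 4 (by norm_num)
    ((QQ_dvd2 8 4 2 1).trans h1) ((QQ_dvd2 8 4 2 1).trans h2') ne2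
  have e3 : (1 + X + X ^ 2 : ℚ[X]) ^ 3 ∣ P := pow_succ_dvd cop3 2 (by norm_num)
    ((QQ_dvd3 8 4 2 1).trans h1) ((QQ_dvd3 8 4 2 1).trans h2') ne3
  have e4 : (1 + X ^ 2 : ℚ[X]) ^ 2 ∣ P := pow_succ_dvd cop4 1 (by norm_num)
    ((QQ_dvd4 8 4 2 1).trans h1) ((QQ_dvd4 8 4 2 1).trans h2') ne4
  obtain ⟨W, hW⟩ := QQ_dvd h.one e2 e3 e4
  obtain ⟨V, hV⟩ : ∃ V : ℚ[X], V = 1 + X ^ 2 + X ^ 3 + X ^ 4 + X ^ 6 := ⟨_, rfl⟩
  have hP0 : P ≠ 0 := by
    rintro rfl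
    have := h.c0
    simp at this
  have hd := natDegree_factor hW hP0
  rw [h.deg, QQ_deg] at hd
  have hWd : W.natDegree = 6 := by omega
  have hWl : W.coeff 6 = 1 := by
    have h3 := h.lead
    rw [hW, leadingCoeff_mul, QQ_lc] at h3
    have h4 : W.leadingCoeff = 1 := by linarith
    unfold leadingCoeff at h4
    rwa [hWd] at h4
  -- the low coefficients of `P`
  have r0 := h.c0
  have r1 := h.recu 1 (by norm_num)
  have r2 := h.recu 2 (by norm_num)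
  have r3 := h.recu 3 (by norm_num)
  have r4 := h.recu 4 (by norm_num)
  have r5 := h.recu 5 (by norm_num)
  simp only [Finset.sum_range_succ, Finset.sum_range_zero, h.c_zero, hc1, hc2, hc3, hc4, hc5,
    Nat.sub_zero, Nat.reduceSub, r0] at r1 r2 r3 r4 r5
  have hX : X ^ 6 ∣ P - QQ 9 5 3 2 * V := by
    rw [X_pow_dvd_iff]
    intro d hd
    rw [hV, E8_expand, coeff_sub, coeff_add, coeff_mul_X_pow', if_neg (by omega)]
    have hA : (1 - X - 2 * X ^ 2 + X ^ 4 + 4 * X ^ 5 : ℚ[X]) =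
        C 1 + C (-1) * X ^ 1 + C (-2) * X ^ 2 + C 1 * X ^ 4 + C 4 * X ^ 5 := by
      simp only [map_neg, map_ofNat, map_one]
      ring
    rw [hA]
    simp only [coeff_add, coeff_C_mul_X_pow, coeff_C]
    interval_cases d <;> simp <;> linarith
  have hX2 : X ^ 6 ∣ W - V := by
    have h3 : P - QQ 9 5 3 2 * V = QQ 9 5 3 2 * (W - V) := by rw [hW]; ring
    rw [h3] at hX
    have hco : IsCoprime (X : ℚ[X]) (QQ 9 5 3 2) := by
      have h4 : QQ 9 5 3 2 = 1 + (QQ 9 5 3 2).divX * X := by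
        conv_lhs => rw [← Polynomial.divX_mul_X_add (QQ 9 5 3 2)]
        rw [QQ_c0, Polynomial.C_1]
        ring
      rw [h4]
      exact (IsCoprime.add_mul_right_right_iff).mpr isCoprime_one_right
    exact (hco.pow_left).dvd_of_dvd_mul_left hX
  have hWV : W - V = 0 := by
    ext n
    rcases Nat.lt_or_ge n 6 with hn | hn
    · rw [X_pow_dvd_iff] at hX2
      rw [hX2 n hn, coeff_zero]
    · rcases Nat.eq_or_lt_of_le hn with hn6 | hn6
      · rw [coeff_sub, ← hn6, hWl, hV]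
        simp [coeff_one, coeff_X_pow]
      · rw [coeff_sub, coeff_eq_zero_of_natDegree_lt (by omega), hV]
        have h3 : (1 + X ^ 2 + X ^ 3 + X ^ 4 + X ^ 6 : ℚ[X]).natDegree ≤ 6 := by compute_degree
        rw [coeff_eq_zero_of_natDegree_lt (by omega)]
        simp
  rw [hW, sub_eq_zero.mp hWV, hV]

/-! positivity -/

theorem pos_step {k : ℕ} (hk : 1 ≤ k) {f g : PowerSeries ℚ} (h : (1 - PowerSeries.X ^ k) * f = g)
    (hg : ∀ n, 0 ≤ PowerSeries.coeff n g) : ∀ n, 0 ≤ PowerSeries.coeff n f := by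
  intro n
  induction n using Nat.strong_induction_on with
  | _ n ih =>
    have h1 := congrArg (PowerSeries.coeff n) h
    rw [sub_mul, one_mul, map_sub, PowerSeries.coeff_X_pow_mul'] at h1
    have h2 := hg n
    split_ifs at h1 with hn
    · have h3 := ih (n - k) (by omega)
      linarith
    · linarith

theorem one_pos : ∀ n, 0 ≤ PowerSeries.coeff n (1 : PowerSeries ℚ) := by
  intro n
  rw [PowerSeries.coeff_one]
  split_ifs <;> norm_num

theorem E7_form : QQ 8 4 2 1 = (1 - X ^ 1) * ((1 - X ^ 1) * ((1 - X ^ 2) * ((1 - X ^ 2) *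
    ((1 - X ^ 2) * ((1 - X ^ 3) * ((1 - X ^ 3) * (1 - X ^ 4))))))) := by
  unfold QQ
  ring

theorem E8_form : QQ 9 5 3 2 * (1 + X ^ 2 + X ^ 3 + X ^ 4 + X ^ 6) =
    (1 - X ^ 1) * ((1 - X ^ 2) * ((1 - X ^ 2) * ((1 - X ^ 3) * ((1 - X ^ 3) * ((1 - X ^ 4) *
    ((1 - X ^ 4) * ((1 - X ^ 5) * (1 - X ^ 6)))))))) := by
  unfold QQ
  ring

theorem coe_fac (k : ℕ) : ((1 - X ^ k : ℚ[X]) : PowerSeries ℚ) = 1 - PowerSeries.X ^ k := by
  simp

theorem E7_pos {P : ℚ[X]} {c : ℕ → ℚ} (h : (P : PowerSeries ℚ) * PowerSeries.mk c = 1)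
    (hP : P = QQ 8 4 2 1) (g : ℕ) : 0 ≤ c g := by
  rw [hP, E7_form] at h
  simp only [Polynomial.coe_mul, coe_fac, mul_assoc] at h
  have h1 := pos_step (by norm_num) h one_pos
  have h2 := pos_step (by norm_num) rfl h1
  have h3 := pos_step (by norm_num) rfl h2
  have h4 := pos_step (by norm_num) rfl h3
  have h5 := pos_step (by norm_num) rfl h4
  have h6 := pos_step (by norm_num) rfl h5
  have h7 := pos_step (by norm_num) rfl h6
  have h8 := pos_step (by norm_num) rfl h7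
  have := h8 g
  rwa [PowerSeries.coeff_mk] at this

theorem E8_pos {P : ℚ[X]} {c : ℕ → ℚ} (h : (P : PowerSeries ℚ) * PowerSeries.mk c = 1)
    (hP : P = QQ 9 5 3 2 * (1 + X ^ 2 + X ^ 3 + X ^ 4 + X ^ 6)) (g : ℕ) : 0 ≤ c g := by
  rw [hP, E8_form] at h
  simp only [Polynomial.coe_mul, coe_fac, mul_assoc] at h
  have h1 := pos_step (by norm_num) h one_pos
  have h2 := pos_step (by norm_num) rfl h1
  have h3 := pos_step (by norm_num) rfl h2
  have h4 := pos_step (by norm_num) rfl h3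
  have h5 := pos_step (by norm_num) rfl h4
  have h6 := pos_step (by norm_num) rfl h5
  have h7 := pos_step (by norm_num) rfl h6
  have h8 := pos_step (by norm_num) rfl h7
  have h9 := pos_step (by norm_num) rfl h8
  have := h9 g
  rwa [PowerSeries.coeff_mk] at this


/-! low values of `c` -/

/-- the first coefficients of the inverse from the first coefficients of `P`. -/
theorem low_c {P : ℚ[X]} {c : ℕ → ℚ} (h : (P : PowerSeries ℚ) * PowerSeries.mk c = 1)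
    (h0 : P.coeff 0 = 1) : c 0 = 1 ∧ ∀ n, 1 ≤ n →
      ∑ i ∈ Finset.range (n + 1), P.coeff i * c (n - i) = 0 := by
  constructor
  · have h1 := congrArg (PowerSeries.coeff 0) h
    rw [PowerSeries.coeff_mul, Finset.Nat.sum_antidiagonal_eq_sum_range_succ
      (fun i j => PowerSeries.coeff i (P : PowerSeries ℚ) *
        PowerSeries.coeff j (PowerSeries.mk c))] at h1
    simp only [Polynomial.coeff_coe, PowerSeries.coeff_mk] at h1
    simp [h0] at h1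
    exact h1
  · intro n hn
    have h1 := congrArg (PowerSeries.coeff n) h
    rw [PowerSeries.coeff_mul, Finset.Nat.sum_antidiagonal_eq_sum_range_succ
      (fun i j => PowerSeries.coeff i (P : PowerSeries ℚ) *
        PowerSeries.coeff j (PowerSeries.mk c))] at h1
    simp only [Polynomial.coeff_coe, PowerSeries.coeff_mk] at h1
    rw [h1, PowerSeries.coeff_one, if_neg (by omega)]

theorem D5_expand : QQ 6 2 0 0 =
    (C 1 + C (-4) * X ^ 1 + C 4 * X ^ 2 + C 4 * X ^ 3 + C (-10) * X ^ 4 + C 4 * X ^ 5) +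
    (4 - 4 * X + X ^ 2) * X ^ 6 := by
  unfold QQ
  simp only [map_neg, map_ofNat, map_one]
  ring

/-- the values of `c` for `D5`. -/
theorem D5_c {P : ℚ[X]} {c : ℕ → ℚ} (h : (P : PowerSeries ℚ) * PowerSeries.mk c = 1)
    (hP : P = QQ 6 2 0 0) : c 0 = 1 ∧ c 1 = 4 ∧ c 2 = 12 ∧ c 3 = 28 ∧ c 4 = 58 ∧ c 5 = 108 := by
  have h0 : P.coeff 0 = 1 := by rw [hP, QQ_c0]
  obtain ⟨hc0, hr⟩ := low_c h h0
  have hco : ∀ n < 6, P.coeff n =
      (C 1 + C (-4) * X ^ 1 + C 4 * X ^ 2 + C 4 * X ^ 3 + C (-10) * X ^ 4 + C 4 * X ^ 5 : ℚ[X]).coeff n := by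
    intro n hn
    rw [hP, D5_expand, coeff_add, coeff_mul_X_pow', if_neg (by omega), add_zero]
  have h1 : P.coeff 1 = -4 := by
    rw [hco 1 (by norm_num)]; simp [coeff_C, coeff_one]
  have h2 : P.coeff 2 = 4 := by
    rw [hco 2 (by norm_num)]; simp [coeff_C, coeff_one]
  have h3 : P.coeff 3 = 4 := by
    rw [hco 3 (by norm_num)]; simp [coeff_C, coeff_one]
  have h4 : P.coeff 4 = -10 := by
    rw [hco 4 (by norm_num)]; simp [coeff_C, coeff_one]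
  have h5 : P.coeff 5 = 4 := by
    rw [hco 5 (by norm_num)]; simp [coeff_C, coeff_one]
  have r1 := hr 1 (by norm_num)
  have r2 := hr 2 (by norm_num)
  have r3 := hr 3 (by norm_num)
  have r4 := hr 4 (by norm_num)
  have r5 := hr 5 (by norm_num)
  simp only [Finset.sum_range_succ, Finset.sum_range_zero, hc0, Nat.sub_zero, Nat.reduceSub, h0,
    h1, h2, h3, h4, h5] at r1 r2 r3 r4 r5
  have v1 : c 1 = 4 := by linarith
  rw [v1] at r2 r3 r4 r5
  have v2 : c 2 = 12 := by linarith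
  rw [v2] at r3 r4 r5
  have v3 : c 3 = 28 := by linarith
  rw [v3] at r4 r5
  have v4 : c 4 = 58 := by linarith
  rw [v4] at r5
  have v5 : c 5 = 108 := by linarith
  exact ⟨hc0, v1, v2, v3, v4, v5⟩

theorem E6_expand : QQ 7 3 1 0 =
    (C 1 + C (-3) * X ^ 1 + C 7 * X ^ 3 + C (-3) * X ^ 4 + C (-6) * X ^ 5) +
    (6 * X + 3 * X ^ 2 - 7 * X ^ 3 + 3 * X ^ 5 - X ^ 6) * X ^ 6 := by
  unfold QQ
  simp only [map_neg, map_ofNat, map_one]
  ring

/-- the values of `c` for `E6`. -/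
theorem E6_c {P : ℚ[X]} {c : ℕ → ℚ} (h : (P : PowerSeries ℚ) * PowerSeries.mk c = 1)
    (hP : P = QQ 7 3 1 0) : c 0 = 1 ∧ c 1 = 3 ∧ c 2 = 9 ∧ c 3 = 20 ∧ c 4 = 42 ∧ c 5 = 78 := by
  have h0 : P.coeff 0 = 1 := by rw [hP, QQ_c0]
  obtain ⟨hc0, hr⟩ := low_c h h0
  have hco : ∀ n < 6, P.coeff n =
      (C 1 + C (-3) * X ^ 1 + C 7 * X ^ 3 + C (-3) * X ^ 4 + C (-6) * X ^ 5 : ℚ[X]).coeff n := by
    intro n hn
    rw [hP, E6_expand, coeff_add, coeff_mul_X_pow', if_neg (by omega), add_zero]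
  have h1 : P.coeff 1 = -3 := by
    rw [hco 1 (by norm_num)]; simp [coeff_C, coeff_one]
  have h2 : P.coeff 2 = 0 := by
    rw [hco 2 (by norm_num)]; simp [coeff_C, coeff_one]
  have h3 : P.coeff 3 = 7 := by
    rw [hco 3 (by norm_num)]; simp [coeff_C, coeff_one]
  have h4 : P.coeff 4 = -3 := by
    rw [hco 4 (by norm_num)]; simp [coeff_C, coeff_one]
  have h5 : P.coeff 5 = -6 := by
    rw [hco 5 (by norm_num)]; simp [coeff_C, coeff_one]
  have r1 := hr 1 (by norm_num)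
  have r2 := hr 2 (by norm_num)
  have r3 := hr 3 (by norm_num)
  have r4 := hr 4 (by norm_num)
  have r5 := hr 5 (by norm_num)
  simp only [Finset.sum_range_succ, Finset.sum_range_zero, hc0, Nat.sub_zero, Nat.reduceSub, h0,
    h1, h2, h3, h4, h5] at r1 r2 r3 r4 r5
  have v1 : c 1 = 3 := by linarith
  rw [v1] at r2 r3 r4 r5
  have v2 : c 2 = 9 := by linarith
  rw [v2] at r3 r4 r5
  have v3 : c 3 = 20 := by linarith
  rw [v3] at r4 r5
  have v4 : c 4 = 42 := by linarith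
  rw [v4] at r5
  have v5 : c 5 = 78 := by linarith
  exact ⟨hc0, v1, v2, v3, v4, v5⟩

theorem E7_expand : QQ 8 4 2 1 =
    (C 1 + C (-2) * X ^ 1 + C (-2) * X ^ 2 + C 4 * X ^ 3 + C 3 * X ^ 4) +
    (-7 - 4 * X + 5 * X ^ 2 + 4 * X ^ 3 + 5 * X ^ 4 - 4 * X ^ 5 - 7 * X ^ 6 + 3 * X ^ 8 + 4 * X ^ 9 - 2 * X ^ 10 - 2 * X ^ 11 + X ^ 12) * X ^ 6 := by
  unfold QQ
  simp only [map_neg, map_ofNat, map_one]
  ring

/-- the values of `c` for `E7`. -/
theorem E7_c {P : ℚ[X]} {c : ℕ → ℚ} (h : (P : PowerSeries ℚ) * PowerSeries.mk c = 1)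
    (hP : P = QQ 8 4 2 1) : c 0 = 1 ∧ c 1 = 2 ∧ c 2 = 6 ∧ c 3 = 12 ∧ c 4 = 25 ∧ c 5 = 44 := by
  have h0 : P.coeff 0 = 1 := by rw [hP, QQ_c0]
  obtain ⟨hc0, hr⟩ := low_c h h0
  have hco : ∀ n < 6, P.coeff n =
      (C 1 + C (-2) * X ^ 1 + C (-2) * X ^ 2 + C 4 * X ^ 3 + C 3 * X ^ 4 : ℚ[X]).coeff n := by
    intro n hn
    rw [hP, E7_expand, coeff_add, coeff_mul_X_pow', if_neg (by omega), add_zero]
  have h1 : P.coeff 1 = -2 := by
    rw [hco 1 (by norm_num)]; simp [coeff_C, coeff_one]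
  have h2 : P.coeff 2 = -2 := by
    rw [hco 2 (by norm_num)]; simp [coeff_C, coeff_one]
  have h3 : P.coeff 3 = 4 := by
    rw [hco 3 (by norm_num)]; simp [coeff_C, coeff_one]
  have h4 : P.coeff 4 = 3 := by
    rw [hco 4 (by norm_num)]; simp [coeff_C, coeff_one]
  have h5 : P.coeff 5 = 0 := by
    rw [hco 5 (by norm_num)]; simp [coeff_C, coeff_one]
  have r1 := hr 1 (by norm_num)
  have r2 := hr 2 (by norm_num)
  have r3 := hr 3 (by norm_num)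
  have r4 := hr 4 (by norm_num)
  have r5 := hr 5 (by norm_num)
  simp only [Finset.sum_range_succ, Finset.sum_range_zero, hc0, Nat.sub_zero, Nat.reduceSub, h0,
    h1, h2, h3, h4, h5] at r1 r2 r3 r4 r5
  have v1 : c 1 = 2 := by linarith
  rw [v1] at r2 r3 r4 r5
  have v2 : c 2 = 6 := by linarith
  rw [v2] at r3 r4 r5
  have v3 : c 3 = 12 := by linarith
  rw [v3] at r4 r5
  have v4 : c 4 = 25 := by linarith
  rw [v4] at r5
  have v5 : c 5 = 44 := by linarith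
  exact ⟨hc0, v1, v2, v3, v4, v5⟩

/-- type `A_n`. -/
theorem An_c {P : ℚ[X]} {c : ℕ → ℚ} (h : (P : PowerSeries ℚ) * PowerSeries.mk c = 1) (n : ℕ)
    (hP : P = (1 - X) ^ (n + 1)) (g : ℕ) : c g = ((g + n).choose n : ℕ) := by
  have h1 : (P : PowerSeries ℚ) = (1 - PowerSeries.X) ^ (n + 1) := by
    rw [hP]
    simp
  have h2 : PowerSeries.mk c = PowerSeries.mk (fun i => ((n + i).choose n : ℚ)) := by
    have h3 : (1 - PowerSeries.X : PowerSeries ℚ) ^ (n + 1) *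
        PowerSeries.mk (fun i => ((n + i).choose n : ℚ)) = 1 := by
      have h4 := PowerSeries.mk_add_choose_mul_one_sub_pow_eq_one ℚ n
      rw [mul_comm]
      exact h4
    rw [h1] at h
    have h5 : PowerSeries.mk c = (PowerSeries.mk c) * ((1 - PowerSeries.X : PowerSeries ℚ) ^ (n + 1) *
        PowerSeries.mk (fun i => ((n + i).choose n : ℚ))) := by rw [h3, mul_one]
    rw [h5, ← mul_assoc, mul_comm (PowerSeries.mk c), h, one_mul]
  have h6 := congrArg (PowerSeries.coeff g) h2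
  rw [PowerSeries.coeff_mk, PowerSeries.coeff_mk] at h6
  rw [h6, Nat.add_comm]

/-- `P = (1 - X) ^ (n + 1)` from the degree. -/
theorem An {P : ℚ[X]} {c : ℕ → ℚ} {m : ℕ} {l : ℚ} {k : ℕ} (h : PC P c m l k) (hm : m = k) :
    P = (1 - X) ^ k := by
  obtain ⟨W, hW⟩ := h.one
  have hP0 : P ≠ 0 := by
    rintro rfl
    have := h.c0
    simp at this
  have hd := natDegree_factor hW hP0
  rw [h.deg, natDegree_pow, nd1] at hd
  have hWd : W.natDegree = 0 := by omega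
  have hW0 : W.coeff 0 = 1 := by
    have h1 := h.c0
    rw [hW, mul_coeff_zero] at h1
    have h2 : ((1 - X : ℚ[X]) ^ k).coeff 0 = 1 := by
      rw [coeff_zero_eq_eval_zero]; simp
    rw [h2, one_mul] at h1
    exact h1
  have h3 : W = 1 := by
    rw [eq_C_of_natDegree_eq_zero hWd, hW0, C_1]
  rw [hW, h3, mul_one]

end Pool.H27.PD
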